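import Pool.Agent.helper24.CG.Spec

/-! Row `cg:RCH` (reachable closed sets), from `HLN`. -/

set_option autoImplicit false

namespace Pool.Agent.helper24.CG

open Finset

/-- iterated unions -/
def RCH_it {α : Type} [DecidableEq α] (s : α → Finset α) (R0 : Finset α) : ℕ → Finset α
  | 0 => R0
  | i + 1 => (RCH_it s R0 i).biUnion s

theorem RCH_it_card {α : Type} [DecidableEq α] (s : α → Finset α) (R0 : Finset α) (a : ℕ)
    (h : ∀ B, (s B).card ≤ a) (i : ℕ) : (RCH_it s R0 i).card ≤ R0.card * a ^ i := by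
  induction i with
  | zero => simp [RCH_it]
  | succ i ih =>
    calc (RCH_it s R0 (i + 1)).card = ((RCH_it s R0 i).biUnion s).card := rfl
      _ ≤ ∑ B ∈ RCH_it s R0 i, (s B).card := Finset.card_biUnion_le
      _ ≤ ∑ _B ∈ RCH_it s R0 i, a := Finset.sum_le_sum fun B _ => h B
      _ = (RCH_it s R0 i).card * a := by rw [Finset.sum_const, smul_eq_mul]
      _ ≤ (R0.card * a ^ i) * a := Nat.mul_le_mul_right _ ih
      _ = R0.card * a ^ (i + 1) := by ring

/-- first kind of steps -/
def RCH_s1 {N : ℕ} (H : List (ES N)) (B : Finset (Fin N)) : Finset (Finset (Fin N)) :=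
  insert B (H.toFinset.biUnion fun E => (verts E).powerset.image fun C => B ∪ C)

/-- second kind of steps -/
def RCH_s2 {N : ℕ} (X : Finset (Fin N) → Finset (Fin N)) (B : Finset (Fin N)) :
    Finset (Finset (Fin N)) :=
  insert B ((X B).image fun v => insert v B)

theorem RCH_verts_card {N m : ℕ} {H : List (ES N)} (hH : Hist N m H) {E : ES N} (hE : E ∈ H) :
    (verts E).card ≤ 2 * m := by
  obtain ⟨h1, _, h3⟩ := hH.mem E hE
  calc (verts E).card ≤ ∑ e ∈ E, (id e : Finset (Fin N)).card := Finset.card_biUnion_le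
    _ = ∑ _e ∈ E, 2 := Finset.sum_congr rfl fun e he => (Finset.mem_powersetCard.1 (h1 he)).2
    _ = E.card * 2 := by rw [Finset.sum_const, smul_eq_mul]
    _ ≤ 2 * m := by omega

theorem RCH_s1_card {N m : ℕ} {H : List (ES N)} (hH : Hist N m H) (hL : H.length ≤ N ^ 2)
    (B : Finset (Fin N)) : (RCH_s1 H B).card ≤ 1 + N ^ 2 * 4 ^ m := by
  unfold RCH_s1
  refine (Finset.card_insert_le _ _).trans ?_
  have h1 : (H.toFinset.biUnion fun E => (verts E).powerset.image fun C => B ∪ C).card ≤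
      N ^ 2 * 4 ^ m := by
    calc (H.toFinset.biUnion fun E => (verts E).powerset.image fun C => B ∪ C).card
        ≤ ∑ E ∈ H.toFinset, ((verts E).powerset.image fun C => B ∪ C).card :=
          Finset.card_biUnion_le
      _ ≤ ∑ _E ∈ H.toFinset, 4 ^ m := by
          refine Finset.sum_le_sum fun E hE => ?_
          refine Finset.card_image_le.trans ?_
          rw [Finset.card_powerset]
          calc 2 ^ (verts E).card ≤ 2 ^ (2 * m) :=
                Nat.pow_le_pow_right (by norm_num) (RCH_verts_card hH (List.mem_toFinset.1 hE))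
            _ = 4 ^ m := by rw [pow_mul]; norm_num
      _ = H.toFinset.card * 4 ^ m := by rw [Finset.sum_const, smul_eq_mul]
      _ ≤ N ^ 2 * 4 ^ m :=
          Nat.mul_le_mul_right _ ((List.toFinset_card_le H).trans hL)
  omega

theorem RCH_s2_card {N n0 : ℕ} (X : Finset (Fin N) → Finset (Fin N))
    (hX : ∀ B, (X B).card ≤ n0) (B : Finset (Fin N)) : (RCH_s2 X B).card ≤ 1 + n0 := by
  unfold RCH_s2
  refine (Finset.card_insert_le _ _).trans ?_
  have := (Finset.card_image_le (s := X B) (f := fun v => insert v B)).trans (hX B)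
  omega

theorem RCH_verts_sub {N : ℕ} (K : Finset (Fin N)) (E : ES N) : verts (E ∩ ed K) ⊆ K := by
  intro v hv
  obtain ⟨e, he, hve⟩ := Finset.mem_biUnion.1 hv
  exact (Finset.mem_powersetCard.1 (Finset.mem_inter.1 he).2).1 hve

theorem RCH_verts_mono {N : ℕ} {S T : ES N} (h : S ⊆ T) : verts S ⊆ verts T :=
  Finset.biUnion_subset_biUnion_of_subset_left _ h

theorem RCH_closed_mono {N J : ℕ} {K : Finset (Fin N)} {H : List (ES N)} {B C : Finset (Fin N)}
    (h : B ⊆ C) (hB : Closed J K H B) : Closed J K H C := by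
  intro E hE
  exact lt_of_le_of_lt (Finset.card_le_card (Finset.sdiff_subset_sdiff (Finset.Subset.refl _) h))
    (hB E hE)

theorem RCH_phase1 {N J : ℕ} (H : List (ES N)) (K : Finset (Fin N)) (i : ℕ) :
    ∃ B ∈ RCH_it (RCH_s1 H) {∅} i, B ⊆ K ∧ (Closed J K H B ∨ i * J ≤ B.card) := by
  induction i with
  | zero => exact ⟨∅, by simp [RCH_it], by simp, Or.inr (by simp)⟩
  | succ i ih =>
    obtain ⟨B, hB, hBK, hc⟩ := ih
    by_cases hcl : Closed J K H B
    · refine ⟨B, ?_, hBK, Or.inl hcl⟩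
      exact Finset.mem_biUnion.2 ⟨B, hB, Finset.mem_insert_self _ _⟩
    · have hc' := hc.resolve_left hcl
      unfold Closed at hcl
      push Not at hcl
      obtain ⟨E, hE, hJ⟩ := hcl
      refine ⟨B ∪ verts (E ∩ ed K), ?_, ?_, Or.inr ?_⟩
      · refine Finset.mem_biUnion.2 ⟨B, hB, Finset.mem_insert_of_mem ?_⟩
        refine Finset.mem_biUnion.2 ⟨E, List.mem_toFinset.2 hE, ?_⟩
        exact Finset.mem_image.2 ⟨verts (E ∩ ed K),
          Finset.mem_powerset.2 (RCH_verts_mono Finset.inter_subset_left), rfl⟩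
      · exact Finset.union_subset hBK (RCH_verts_sub K E)
      · have e : B ∪ verts (E ∩ ed K) = B ∪ (verts (E ∩ ed K) \ B) := by
          rw [Finset.union_sdiff_self_eq_union]
        rw [e, Finset.card_union_of_disjoint Finset.disjoint_sdiff]
        calc (i + 1) * J = i * J + J := by ring
          _ ≤ _ := Nat.add_le_add hc' hJ

theorem RCH_phase2 {N J : ℕ} (H : List (ES N)) (X : Finset (Fin N) → Finset (Fin N))
    (K : Finset (Fin N)) (R0 : Finset (Finset (Fin N)))
    (h0 : ∃ B ∈ R0, B ⊆ K ∧ Closed J K H B) (j : ℕ) :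
    ∃ B ∈ RCH_it (RCH_s2 X) R0 j, B ⊆ K ∧ Closed J K H B ∧
      (Disjoint (X B) (K \ B) ∨ j ≤ B.card) := by
  induction j with
  | zero =>
    obtain ⟨B, hB, hBK, hc⟩ := h0
    exact ⟨B, hB, hBK, hc, Or.inr (Nat.zero_le _)⟩
  | succ j ih =>
    obtain ⟨B, hB, hBK, hc, hd⟩ := ih
    by_cases hdis : Disjoint (X B) (K \ B)
    · exact ⟨B, Finset.mem_biUnion.2 ⟨B, hB, Finset.mem_insert_self _ _⟩, hBK, hc, Or.inl hdis⟩
    · have hd' := hd.resolve_left hdis
      obtain ⟨v, hvX, hvK⟩ := Finset.not_disjoint_iff.1 hdis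
      obtain ⟨hvK1, hvB⟩ := Finset.mem_sdiff.1 hvK
      refine ⟨insert v B, ?_, ?_, RCH_closed_mono (Finset.subset_insert _ _) hc, Or.inr ?_⟩
      · refine Finset.mem_biUnion.2 ⟨B, hB, Finset.mem_insert_of_mem ?_⟩
        exact Finset.mem_image.2 ⟨v, hvX, rfl⟩
      · exact Finset.insert_subset hvK1 hBK
      · rw [Finset.card_insert_of_notMem hvB]
        omega

theorem RCH (h : HLN_stmt) : RCH_stmt := by
  intro N m q J n0 H X hJ hH hX
  have hL := (h N m H hH).1
  refine ⟨RCH_it (RCH_s2 X) (RCH_it (RCH_s1 H) {∅} (q / J + 1)) (q + 1), ?_, ?_⟩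
  · refine (RCH_it_card _ _ _ (RCH_s2_card X hX) _).trans ?_
    have h1 := RCH_it_card (RCH_s1 H) {∅} _ (RCH_s1_card hH hL) (q / J + 1)
    rw [Finset.card_singleton, one_mul] at h1
    exact Nat.mul_le_mul_right _ h1
  · intro K hK
    have h0 : ∃ B ∈ RCH_it (RCH_s1 H) {∅} (q / J + 1), B ⊆ K ∧ Closed J K H B := by
      obtain ⟨B, hB, hBK, hc⟩ := RCH_phase1 (J := J) H K (q / J + 1)
      refine ⟨B, hB, hBK, hc.resolve_right fun hcard => ?_⟩
      have h2 : B.card ≤ q := hK ▸ Finset.card_le_card hBK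
      have h3 : q < (q / J + 1) * J := by
        have := Nat.lt_div_mul_add (a := q) (show 0 < J by omega)
        calc q < q / J * J + J := this
          _ = (q / J + 1) * J := by ring
      omega
    obtain ⟨B, hB, hBK, hc, hd⟩ := RCH_phase2 (J := J) H X K _ h0 (q + 1)
    refine ⟨B, hB, hBK, hc, hd.resolve_right fun hcard => ?_⟩
    have h2 : B.card ≤ q := hK ▸ Finset.card_le_card hBK
    omega

end Pool.Agent.helper24.CG
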