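import Pool.Agent.helper93.ER.Spec

/-!
# MP_07c750: the closed geodesics carry at most the mass of the part of entropy `0`

RULES: file `Pool/Agent/<seat>/CG/CGM.lean`, `import Pool.Agent.helper52.CG.Spec` (and what you need), `set_option autoImplicit false`, namespace `Pool.Agent.CG`, theorem `CGM_proof (h : NS.YYY_stmt) .. : CGM_stmt` (hypotheses only rows of EN, ER, RS, QU, all proved).
-/

open scoped MatrixGroups Topology UpperHalfPlane
open UpperHalfPlane MeasureTheory Filter Set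

namespace Pool.Agent.CG

open Pool.Agent.EN (XG MG mkX mkM fl pr)
open Pool.Agent.ER (Low Bow)
open Pool.Agent.RS (aM)

/-- the union of all closed geodesics of `M = Γ \ ℍ`: the points `Γ g i` such that the geodesic `t ↦ g a_t i` is periodic in `M` -/
def CGset (Γ : Subgroup SL(2, ℝ)) : Set (MG Γ) := {x | ∃ g : SL(2, ℝ), x = mkM Γ (g • I) ∧ ∃ t : ℝ, 0 < t ∧ ∃ γ : Γ, (γ : SL(2, ℝ)) * g = g * aM t ∨ (γ : SL(2, ℝ)) * g = -(g * aM t)}

/-- **Row CGM** (medium). `Γ` is countable. For `γ ∈ Γ` let `A_γ ⊆ ℍ` be the set of the `g i` with `γ g = ± g a_t` for some `t > 0` (the axis of `γ`, empty or one geodesic `k {i e^s}`: if `k⁻¹ γ k = ± a_t`, `t > 0`, then `γ g = ± g a_(t')`, `t' > 0`, forces `t' = t` (trace) and `k⁻¹ g` commutes with `a_t`, so `g = ± k a_s`, or `g = k w a_s`, impossible as `t' > 0`). `CGset` is the image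
of the countable union of the `A_γ`; every `A_γ` is empty or the image of `ℝ` under a continuous map, so `CGset` is σ-compact, so Borel, and `μ.map (pr Γ) CGset = μ (pr⁻¹ CGset)`. Let `P` = the `x ∈ X` with `fl t x = x` for some `t > 0` (if `γ g = -(g a_t)` then `γ² g = g a_(2t)`).
(1) `μ (pr⁻¹ CGset \ P) = 0`: let `B = pr⁻¹ CGset \ P` (`P` is Borel: a countable union of the sets `{Γ k a_s}`, closed orbits). For `x = Γ g ∉ P` the times `t` with `fl t x ∈ pr⁻¹ CGset` are those with `g a_t i ∈ A_γ` for some `γ ∈ Γ`; for `A_γ = k {i e^s}` and `h = k⁻¹ g = [[a, b], [c, d]]`: `Re (h (i y)) = 0` iff `a c y² + b d = 0`, `y = e^t`: at most one `y > 0`, or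
`ac = bd = 0`, and then `h = ± a_s` or `h = ± w a_s` (`w = [[0, 1], [-1, 0]]`), so `x ∈ P` (in the second case `γ⁻¹ k w = ± k w a_t`). So the times are countable, and `μ B = (1/1) ∫_0^1 μ (fl t ⁻¹ B) dt = ∫ vol {t ∈ [0, 1] | fl t x ∈ B} dμ = 0` (Tonelli; `fl` is jointly continuous, EN.XFL).
(2) `μ (P \ Low Γ μ 0) = 0`: `P` is a countable union of closed orbits `O = {fl s x | s ∈ ℝ}`. If `μ O = 0` nothing to do. If `μ O > 0`: for `δ > 0` let `σ > 0` be such that `aM s` is entrywise `δ`-close to `1` for `|s| ≤ σ`; `Bow Γ δ n x ⊇ {fl s x | |s| ≤ σ}` for all `n` (`a_t⁻¹ a_s a_t = a_s`), and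
`μ {fl s x | |s| ≤ σ} > 0` (finitely many translates, of the same measure, cover `O`), so it is `≥ e^(-2εn)` for all large `n`. So `O ⊆ Low 0`. -/
def CGM_stmt : Prop := ∀ (Γ : Subgroup SL(2, ℝ)) (μ : Measure (XG Γ)), QU.SurfaceGroup Γ → IsProbabilityMeasure μ → (∀ t, μ.map (fl Γ t) = μ) →
  MeasurableSet (CGset Γ) ∧ μ.map (pr Γ) (CGset Γ) ≤ μ (Low Γ μ 0)

end Pool.Agent.CG
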